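import Mathlib

set_option autoImplicit false

/-!
# Consensus from single-reader single-writer registers: `W(n) ≥ n ⌈log₂ n⌉`

Model.  There are `n` processors `Fin n`.  For every ordered pair `(w, r)` there are registers
`(w, r, k)`, `k : ℕ`, which only `w` may write and only `r` may read; they hold natural numbers and
are initially `0`.  Processor `i` has an input bit and a private infinite sequence of fair coins; its
next action is a (measurable) function of its index, its input, its coins and the results of the
steps it has taken so far.  An oblivious schedule is a sequence `σ : ℕ → Fin n` fixed in advance; a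
processor that occurs finitely often in `σ` has crashed.
-/

namespace Pool.Agent.Results.MP_217fdb_lc.NLogNLowerBound

open MeasureTheory
open scoped ENNReal

/-- What a processor `i` does next: `read w k` reads the register `(w, i, k)`; `write r k v` writes
`v` to the register `(i, r, k)`; `output v` outputs the bit `v` (and the processor stops). -/
inductive Act (n : ℕ) : Type
  | read (w : Fin n) (k : ℕ)
  | write (r : Fin n) (k : ℕ) (v : ℕ)
  | output (v : Bool)

/-- A randomized algorithm: `next i b c h` is the next action of processor `i` when its input is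
`b`, its private coin sequence is `c`, and `h` is the list of the results of its steps so far, the
most recent one first (`some v` for a read step that returned `v`, `none` for a write step). -/
structure Alg (n : ℕ) where
  next : Fin n → Bool → (ℕ → Bool) → List (Option ℕ) → Act n
  measurable_next : ∀ i b h a, MeasurableSet {c : ℕ → Bool | next i b c h = a}

/-- A configuration: the contents `mem w r k` of the register `(w, r, k)`, and the results
`hist i` of the steps taken so far by processor `i`. -/
structure Config (n : ℕ) where
  mem : Fin n → Fin n → ℕ → ℕ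
  hist : Fin n → List (Option ℕ)

/-- The initial configuration. -/
def Config.init (n : ℕ) : Config n := ⟨fun _ _ _ => 0, fun _ => []⟩

variable {n : ℕ}

/-- Processor `i` is scheduled: it performs its next read or write step, if it has not produced
its output yet. -/
def step (A : Alg n) (b : Fin n → Bool) (c : Fin n → ℕ → Bool) (i : Fin n) (C : Config n) :
    Config n :=
  match A.next i (b i) (c i) (C.hist i) with
  | .read w k => ⟨C.mem, Function.update C.hist i (some (C.mem w i k) :: C.hist i)⟩
  | .write r k v =>
    ⟨Function.update C.mem i (Function.update (C.mem i) r (Function.update (C.mem i r) k v)),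
      Function.update C.hist i (none :: C.hist i)⟩
  | .output _ => C

/-- The configuration after the first `t` entries of the schedule `σ`, for inputs `b` and coins
`c`. -/
def run (A : Alg n) (b : Fin n → Bool) (c : Fin n → ℕ → Bool) (σ : ℕ → Fin n) : ℕ → Config n
  | 0 => Config.init n
  | t + 1 => step A b c (σ t) (run A b c σ t)

/-- After the first `t` entries of the schedule, processor `i` has output `v`. -/
def Outputs (A : Alg n) (b : Fin n → Bool) (c : Fin n → ℕ → Bool) (σ : ℕ → Fin n) (t : ℕ)
    (i : Fin n) (v : Bool) : Prop :=
  A.next i (b i) (c i) ((run A b c σ t).hist i) = .output v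

/-- The total work of an execution: the total number of steps taken by all processors. -/
noncomputable def totalWork (A : Alg n) (b : Fin n → Bool) (c : Fin n → ℕ → Bool)
    (σ : ℕ → Fin n) : ℝ≥0∞ :=
  ⨆ t, ((∑ i, ((run A b c σ t).hist i).length : ℕ) : ℝ≥0∞)

/-- The law of the private coins: independent fair coins for every processor. -/
noncomputable def coins (n : ℕ) : Measure (Fin n → ℕ → Bool) :=
  Measure.pi fun _ => Measure.infinitePi fun _ => (PMF.uniformOfFintype Bool).toMeasure

/-- The algorithm solves (wait-free, binary) consensus: for every input and every oblivious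
schedule, with probability one all outputs are equal, every output is the input of some processor,
and every processor that is scheduled infinitely often produces an output. -/
structure Solves (A : Alg n) : Prop where
  agreement : ∀ (b : Fin n → Bool) (σ : ℕ → Fin n), ∀ᵐ c ∂coins n,
    ∀ t t' i j v v', Outputs A b c σ t i v → Outputs A b c σ t' j v' → v = v'
  validity : ∀ (b : Fin n → Bool) (σ : ℕ → Fin n), ∀ᵐ c ∂coins n,
    ∀ t i v, Outputs A b c σ t i v → ∃ j, b j = v
  wait_free : ∀ (b : Fin n → Bool) (σ : ℕ → Fin n) (i : Fin n), (∀ t, ∃ t' ≥ t, σ t' = i) →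
    ∀ᵐ c ∂coins n, ∃ t v, Outputs A b c σ t i v

/-- The cost of an algorithm: the supremum over inputs and oblivious schedules of the expected
total work. -/
noncomputable def cost (A : Alg n) : ℝ≥0∞ :=
  ⨆ (b : Fin n → Bool) (σ : ℕ → Fin n), ∫⁻ c, totalWork A b c σ ∂coins n

/-- `W(n)`: the least cost of an algorithm that solves consensus. -/
noncomputable def W (n : ℕ) : ℝ≥0∞ := ⨅ (A : Alg n) (_ : Solves A), cost A

/-! ### Elementary facts about runs -/

variable (A : Alg n) (b : Fin n → Bool) (c : Fin n → ℕ → Bool) (σ : ℕ → Fin n)

theorem step_hist_ne {i j : Fin n} (h : j ≠ i) (C : Config n) :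
    (step A b c i C).hist j = C.hist j := by
  unfold step
  split <;> simp [Function.update_of_ne h]

theorem step_of_output {i : Fin n} {C : Config n} {v : Bool}
    (h : A.next i (b i) (c i) (C.hist i) = .output v) : step A b c i C = C := by
  unfold step
  rw [h]

theorem length_mono_step (i j : Fin n) (C : Config n) :
    (C.hist j).length ≤ ((step A b c i C).hist j).length := by
  by_cases h : j = i
  · subst h
    unfold step
    split <;> simp
  · rw [step_hist_ne A b c h]

theorem length_mono {t t' : ℕ} (h : t ≤ t') (j : Fin n) :
    ((run A b c σ t).hist j).length ≤ ((run A b c σ t').hist j).length := by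
  induction h with
  | refl => exact le_rfl
  | step _ ih => exact ih.trans (length_mono_step A b c _ _ _)

theorem outputs_succ {t : ℕ} {i : Fin n} {v : Bool} (h : Outputs A b c σ t i v) :
    Outputs A b c σ (t + 1) i v := by
  unfold Outputs at h ⊢
  rw [run]
  by_cases hi : i = σ t
  · rw [← hi, step_of_output A b c h]
    exact h
  · rw [step_hist_ne A b c hi]
    exact h

theorem outputs_mono {t t' : ℕ} (ht : t ≤ t') {i : Fin n} {v : Bool}
    (h : Outputs A b c σ t i v) : Outputs A b c σ t' i v := by
  induction ht with
  | refl => exact h
  | step _ ih => exact outputs_succ A b c σ ih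

/-! ### Knowledge -/

/-- Knowledge sets: `K i` is the set of processors on whose behaviour the state of `i` may depend,
`R i` is the set of processors on whose behaviour the registers written by `i` may depend. -/
structure Know (n : ℕ) where
  K : Fin n → Finset (Fin n)
  R : Fin n → Finset (Fin n)

/-- The knowledge sets along a run. -/
def know (A : Alg n) (b : Fin n → Bool) (c : Fin n → ℕ → Bool) (σ : ℕ → Fin n) : ℕ → Know n
  | 0 => ⟨fun i => {i}, fun i => {i}⟩
  | t + 1 =>
    ⟨match A.next (σ t) (b (σ t)) (c (σ t)) ((run A b c σ t).hist (σ t)) with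
      | .read w _ => Function.update (know A b c σ t).K (σ t)
          ((know A b c σ t).K (σ t) ∪ (know A b c σ t).R w)
      | .write _ _ _ => (know A b c σ t).K
      | .output _ => (know A b c σ t).K,
     Function.update (know A b c σ t).R (σ t) ((know A b c σ t).K (σ t))⟩

theorem know_R_self (t : ℕ) :
    (know A b c σ (t + 1)).R (σ t) = (know A b c σ t).K (σ t) := by
  simp [know]

theorem know_R_ne {t : ℕ} {i : Fin n} (h : i ≠ σ t) :
    (know A b c σ (t + 1)).R i = (know A b c σ t).R i := by
  simp [know, Function.update_of_ne h]

theorem know_K_ne {t : ℕ} {i : Fin n} (h : i ≠ σ t) :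
    (know A b c σ (t + 1)).K i = (know A b c σ t).K i := by
  rw [know]
  dsimp only
  cases A.next (σ t) (b (σ t)) (c (σ t)) ((run A b c σ t).hist (σ t)) <;>
    simp [Function.update_of_ne h]

theorem know_K_read {t : ℕ} {w : Fin n} {k : ℕ}
    (h : A.next (σ t) (b (σ t)) (c (σ t)) ((run A b c σ t).hist (σ t)) = .read w k) :
    (know A b c σ (t + 1)).K (σ t) = (know A b c σ t).K (σ t) ∪ (know A b c σ t).R w := by
  rw [know]
  dsimp only
  rw [h]
  simp

theorem know_K_write {t : ℕ} {r : Fin n} {k v : ℕ}
    (h : A.next (σ t) (b (σ t)) (c (σ t)) ((run A b c σ t).hist (σ t)) = .write r k v) :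
    (know A b c σ (t + 1)).K (σ t) = (know A b c σ t).K (σ t) := by
  rw [know]
  dsimp only
  rw [h]

theorem know_K_output {t : ℕ} {v : Bool}
    (h : A.next (σ t) (b (σ t)) (c (σ t)) ((run A b c σ t).hist (σ t)) = .output v) :
    (know A b c σ (t + 1)).K (σ t) = (know A b c σ t).K (σ t) := by
  rw [know]
  dsimp only
  rw [h]

theorem know_K_mono (t : ℕ) (i : Fin n) :
    (know A b c σ t).K i ⊆ (know A b c σ (t + 1)).K i := by
  by_cases h : i = σ t
  · subst h
    cases hact : A.next (σ t) (b (σ t)) (c (σ t)) ((run A b c σ t).hist (σ t)) with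
    | read w k => rw [know_K_read A b c σ hact]; exact Finset.subset_union_left
    | write r k v => rw [know_K_write A b c σ hact]
    | output v => rw [know_K_output A b c σ hact]
  · rw [know_K_ne A b c σ h]

theorem know_self (t : ℕ) (i : Fin n) : i ∈ (know A b c σ t).K i := by
  induction t with
  | zero => simp [know]
  | succ t ih => exact know_K_mono A b c σ t i ih

theorem know_R_sub_K (t : ℕ) (i : Fin n) :
    (know A b c σ t).R i ⊆ (know A b c σ t).K i := by
  induction t with
  | zero => simp [know]
  | succ t ih =>
    by_cases h : i = σ t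
    · subst h
      rw [know_R_self]
      exact know_K_mono A b c σ t _
    · rw [know_R_ne A b c σ h, know_K_ne A b c σ h]
      exact ih

/-- The memory of writers other than the scheduled processor does not change. -/
theorem step_mem_ne {i w : Fin n} (hw : w ≠ i) (C : Config n) (r : Fin n) (k : ℕ) :
    (step A b c i C).mem w r k = C.mem w r k := by
  unfold step
  split
  · rfl
  · simp only [Function.update_of_ne hw]
  · rfl

/-- The comparison lemma: a processor whose knowledge set does not contain `q` behaves in the same
way if `q` has another input and runs alone for a while before the others start. -/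
theorem same_behaviour {b' : Fin n → Bool} {σ' : ℕ → Fin n} {q : Fin n} {N : ℕ}
    (hb : ∀ i, i ≠ q → b' i = b i) (hσ1 : ∀ s, s < N → σ' s = q)
    (hσ2 : ∀ s, σ' (N + s) = σ s) (s : ℕ) :
    (∀ i, q ∉ (know A b c σ s).K i →
      (run A b' c σ' (N + s)).hist i = (run A b c σ s).hist i) ∧
    (∀ w, q ∉ (know A b c σ s).R w → ∀ r k,
      (run A b' c σ' (N + s)).mem w r k = (run A b c σ s).mem w r k) := by
  induction s with
  | zero =>
    have key : ∀ m, m ≤ N → (∀ i, i ≠ q → (run A b' c σ' m).hist i = []) ∧
        (∀ w, w ≠ q → ∀ r k, (run A b' c σ' m).mem w r k = 0) := by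
      intro m
      induction m with
      | zero => intro _; exact ⟨fun i _ => rfl, fun w _ r k => rfl⟩
      | succ m ih =>
        intro hm
        obtain ⟨h1, h2⟩ := ih (by omega)
        rw [run, hσ1 m (by omega)]
        constructor
        · intro i hi
          rw [step_hist_ne A b' c hi]
          exact h1 i hi
        · intro w hw r k
          rw [step_mem_ne A b' c hw]
          exact h2 w hw r k
    obtain ⟨h1, h2⟩ := key N le_rfl
    constructor
    · intro i hi
      have hiq : i ≠ q := by
        rintro rfl
        simp [know] at hi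
      rw [Nat.add_zero, h1 i hiq]
      rfl
    · intro w hw r k
      have hwq : w ≠ q := by
        rintro rfl
        simp [know] at hw
      rw [Nat.add_zero, h2 w hwq r k]
      rfl
  | succ s ih =>
    obtain ⟨ih1, ih2⟩ := ih
    have e1 : run A b' c σ' (N + (s + 1)) = step A b' c (σ s) (run A b' c σ' (N + s)) := by
      rw [← Nat.add_assoc, run, hσ2]
    have e2 : run A b c σ (s + 1) = step A b c (σ s) (run A b c σ s) := rfl
    rw [e1, e2]
    constructor
    · intro i hi
      by_cases hne : i = σ s
      · subst hne
        have hK : q ∉ (know A b c σ s).K (σ s) := fun h => hi (know_K_mono A b c σ s _ h)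
        have hh := ih1 _ hK
        have hbi : b' (σ s) = b (σ s) := by
          apply hb
          intro h
          rw [h] at hK
          exact hK (know_self A b c σ s q)
        unfold step
        rw [hh, hbi]
        cases hact : A.next (σ s) (b (σ s)) (c (σ s)) ((run A b c σ s).hist (σ s)) with
        | read w k =>
          rw [know_K_read A b c σ hact, Finset.mem_union, not_or] at hi
          simp only [Function.update_self]
          rw [ih2 w hi.2]
        | write r k v => simp only [Function.update_self]
        | output v => exact hh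
      · rw [know_K_ne A b c σ hne] at hi
        rw [step_hist_ne A b' c hne, step_hist_ne A b c hne]
        exact ih1 i hi
    · intro w hw r k
      by_cases hne : w = σ s
      · subst hne
        rw [know_R_self] at hw
        have hh := ih1 _ hw
        have hm := ih2 _ (fun h => hw (know_R_sub_K A b c σ s _ h))
        have hbi : b' (σ s) = b (σ s) := by
          apply hb
          intro h
          rw [h] at hw
          exact hw (know_self A b c σ s q)
        unfold step
        rw [hh, hbi]
        cases hact : A.next (σ s) (b (σ s)) (c (σ s)) ((run A b c σ s).hist (σ s)) with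
        | read w' k' => exact hm r k
        | write r' k' v' =>
          simp only [Function.update_self]
          by_cases hr : r = r'
          · subst hr
            simp only [Function.update_self]
            by_cases hk : k = k'
            · subst hk
              simp
            · simp only [Function.update_of_ne hk]
              exact hm r k
          · simp only [Function.update_of_ne hr]
            exact hm r k
        | output v => exact hm r k
      · rw [know_R_ne A b c σ hne] at hw
        rw [step_mem_ne A b' c hne, step_mem_ne A b c hne]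
        exact ih2 w hw r k

/-- If only `q` is scheduled, only the input of `q` matters. -/
theorem solo_run {b' : Fin n → Bool} {σ' : ℕ → Fin n} {q : Fin n} {N : ℕ}
    (hb : b' q = b q) (hσ1 : ∀ s, s < N → σ' s = q) (hσ : ∀ s, s < N → σ s = q) (m : ℕ)
    (hm : m ≤ N) : run A b' c σ' m = run A b c σ m := by
  induction m with
  | zero => rfl
  | succ m ih =>
    rw [run, run, ih (by omega), hσ1 m (by omega), hσ m (by omega)]
    unfold step
    rw [hb]

/-- Almost surely, a processor that has output depends on every other processor. -/
theorem knows_all (hA : Solves A) (σ : ℕ → Fin n) :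
    ∀ᵐ c ∂coins n, ∀ t p v, Outputs A (fun _ => false) c σ t p v →
      ∀ q, q ∈ (know A (fun _ => false) c σ t).K p := by
  classical
  -- the modified executions
  obtain ⟨τ, hτ⟩ : ∃ τ : Fin n → ℕ → ℕ → Fin n,
      τ = fun q N s => if s < N then q else σ (s - N) := ⟨_, rfl⟩
  obtain ⟨β, hβ⟩ : ∃ β : Fin n → Fin n → Bool, β = fun q i => decide (i = q) := ⟨_, rfl⟩
  have h1 : ∀ᵐ c ∂coins n, ∀ q N, ∀ t t' i j v v', Outputs A (β q) c (τ q N) t i v →
      Outputs A (β q) c (τ q N) t' j v' → v = v' := by
    rw [ae_all_iff]
    intro q
    rw [ae_all_iff]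
    intro N
    exact hA.agreement (β q) (τ q N)
  have h2 := hA.validity (fun _ => false) σ
  have h3 : ∀ᵐ c ∂coins n, ∀ q : Fin n, ∃ t v, Outputs A (fun _ => true) c (fun _ => q) t q v := by
    rw [ae_all_iff]
    intro q
    exact hA.wait_free (fun _ => true) (fun _ => q) q (fun t => ⟨t, le_rfl, rfl⟩)
  have h4 : ∀ᵐ c ∂coins n, ∀ q : Fin n, ∀ t i v,
      Outputs A (fun _ => true) c (fun _ => q) t i v → ∃ j : Fin n, true = v := by
    rw [ae_all_iff]
    intro q
    exact hA.validity (fun _ => true) (fun _ => q)
  filter_upwards [h1, h2, h3, h4] with c h1 h2 h3 h4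
  intro t p v hp q
  by_contra hq
  have hpq : p ≠ q := by
    rintro rfl
    exact hq (know_self A _ c σ t p)
  obtain ⟨_, hv⟩ := h2 t p v hp
  obtain ⟨N, w, hN⟩ := h3 q
  obtain ⟨_, hw⟩ := h4 q N q w hN
  -- the modified execution: `q` has input `true` and runs alone for `N` steps
  have hτ1 : ∀ s, s < N → τ q N s = q := by
    intro s hs
    rw [hτ]
    simp [hs]
  have hτ2 : ∀ s, τ q N (N + s) = σ s := by
    intro s
    rw [hτ]
    simp
  have hβq : β q q = true := by rw [hβ]; simp
  have hβi : ∀ i, i ≠ q → β q i = false := by
    intro i hi
    rw [hβ]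
    simp [hi]
  have hs := solo_run A (fun _ => true) c (fun _ => q) (b' := β q) (σ' := τ q N) (q := q) (N := N)
    hβq hτ1 (fun _ _ => rfl) N le_rfl
  have hq1 : Outputs A (β q) c (τ q N) N q true := by
    unfold Outputs at hN ⊢
    rw [hs, hβq, hN, ← hw]
  have hb := (same_behaviour A (fun _ => false) c σ (b' := β q) (σ' := τ q N) (q := q) (N := N)
    hβi hτ1 hτ2 t).1 p hq
  have hp1 : Outputs A (β q) c (τ q N) (N + t) p false := by
    unfold Outputs at hp ⊢
    rw [hb, hβi p hpq, hp, ← hv]
  exact Bool.noConfusion (h1 q N N (N + t) q p true false hq1 hp1)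

/-! ### The round-robin schedule -/

/-- Round robin. -/
def rr (hn : 0 < n) (t : ℕ) : Fin n := ⟨t % n, Nat.mod_lt _ hn⟩

/-- How often `i` occurs among the first `t` entries of the round-robin schedule. -/
def cnt (i : Fin n) (t : ℕ) : ℕ := (t + (n - 1 - i)) / n

theorem cnt_succ_self (hn : 0 < n) (t : ℕ) : cnt (rr hn t) (t + 1) = cnt (rr hn t) t + 1 := by
  have h1 : (t % n) + n * (t / n) = t := Nat.mod_add_div t n
  have h2 : t % n < n := Nat.mod_lt _ hn
  unfold cnt rr
  simp only
  have e1 : t + 1 + (n - 1 - t % n) = n * (t / n + 1) := by
    rw [mul_add, mul_one]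
    omega
  have e2 : t + (n - 1 - t % n) = n * (t / n) + (n - 1) := by omega
  have e3 : (n - 1) / n = 0 := Nat.div_eq_of_lt (by omega)
  rw [e1, e2, Nat.mul_div_cancel_left _ hn, Nat.mul_add_div hn, e3, add_zero]

theorem cnt_succ_ne (hn : 0 < n) {i : Fin n} {t : ℕ} (h : i ≠ rr hn t) :
    cnt i (t + 1) = cnt i t := by
  have hi := i.2
  unfold cnt
  have e1 : t + 1 + (n - 1 - i) = t + (n - 1 - i) + 1 := by omega
  rw [e1, Nat.succ_div, if_neg, add_zero]
  intro hdvd
  apply h
  apply Fin.ext
  unfold rr
  simp only
  obtain ⟨m, hm⟩ := hdvd
  have : t = i + n * (m - 1) := by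
    rcases m with _ | m
    · simp at hm
    · rw [mul_add] at hm
      simp
      omega
  rw [this, Nat.add_mul_mod_self_left, Nat.mod_eq_of_lt hi]

theorem cnt_le (hn : 0 < n) (w : Fin n) (t : ℕ) : cnt w t ≤ cnt (rr hn t) t + 1 := by
  unfold cnt
  calc (t + (n - 1 - w)) / n ≤ (t + n) / n := Nat.div_le_div_right (by omega)
    _ = t / n + 1 := Nat.add_div_right _ hn
    _ ≤ _ := Nat.add_le_add_right (Nat.div_le_div_right (by omega)) 1

theorem rr_bounds (hn : 0 < n) (t : ℕ) (i : Fin n) :
    ((know A b c (rr hn) t).K i).card ≤ 2 ^ ((run A b c (rr hn) t).hist i).length ∧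
    ((know A b c (rr hn) t).R i).card ≤ 2 ^ (cnt i t - 1) ∧
    ((run A b c (rr hn) t).hist i).length ≤ cnt i t ∧
    (((run A b c (rr hn) t).hist i).length = cnt i t ∨ ∃ v, Outputs A b c (rr hn) t i v) := by
  induction t generalizing i with
  | zero =>
    have h0 : cnt i 0 = 0 := by
      unfold cnt
      apply Nat.div_eq_of_lt
      omega
    refine ⟨?_, ?_, ?_, ?_⟩
    · simp [know, run, Config.init]
    · simp [know, h0]
    · simp [run, Config.init]
    · left
      simp [run, Config.init, h0]
  | succ t ih =>
    by_cases h : i = rr hn t
    · have hc := cnt_succ_self hn t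
      obtain ⟨ih1, ih2, ih3, ih4⟩ := ih (rr hn t)
      subst h
      have hR : ((know A b c (rr hn) (t + 1)).R (rr hn t)).card ≤
          2 ^ (cnt (rr hn t) (t + 1) - 1) := by
        rw [know_R_self, hc, Nat.add_sub_cancel]
        exact ih1.trans (Nat.pow_le_pow_right (by norm_num) ih3)
      cases hact : A.next (rr hn t) (b (rr hn t)) (c (rr hn t))
          ((run A b c (rr hn) t).hist (rr hn t)) with
      | read w k =>
        have hlen : ((run A b c (rr hn) (t + 1)).hist (rr hn t)).length =
            ((run A b c (rr hn) t).hist (rr hn t)).length + 1 := by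
          rw [run]
          unfold step
          rw [hact]
          simp
        have heq : ((run A b c (rr hn) t).hist (rr hn t)).length = cnt (rr hn t) t := by
          rcases ih4 with h | ⟨v, h⟩
          · exact h
          · unfold Outputs at h
            rw [hact] at h
            exact absurd h (by simp)
        refine ⟨?_, hR, by omega, Or.inl (by omega)⟩
        rw [know_K_read A b c (rr hn) hact, hlen]
        refine (Finset.card_union_le _ _).trans ?_
        have hw := (ih w).2.1
        have hw2 := cnt_le hn w t
        have : 2 ^ (cnt w t - 1) ≤ 2 ^ ((run A b c (rr hn) t).hist (rr hn t)).length :=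
          Nat.pow_le_pow_right (by norm_num) (by omega)
        rw [pow_succ]
        omega
      | write r k v =>
        have hlen : ((run A b c (rr hn) (t + 1)).hist (rr hn t)).length =
            ((run A b c (rr hn) t).hist (rr hn t)).length + 1 := by
          rw [run]
          unfold step
          rw [hact]
          simp
        have heq : ((run A b c (rr hn) t).hist (rr hn t)).length = cnt (rr hn t) t := by
          rcases ih4 with h | ⟨v, h⟩
          · exact h
          · unfold Outputs at h
            rw [hact] at h
            exact absurd h (by simp)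
        refine ⟨?_, hR, by omega, Or.inl (by omega)⟩
        rw [know_K_write A b c (rr hn) hact, hlen]
        exact ih1.trans (Nat.pow_le_pow_right (by norm_num) (Nat.le_succ _))
      | output v =>
        have hrun : run A b c (rr hn) (t + 1) = run A b c (rr hn) t := by
          rw [run]
          exact step_of_output A b c hact
        refine ⟨?_, hR, ?_, Or.inr ⟨v, ?_⟩⟩
        · rw [know_K_output A b c (rr hn) hact, hrun]
          exact ih1
        · rw [hrun]
          omega
        · unfold Outputs
          rw [hrun]
          exact hact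
    · obtain ⟨ih1, ih2, ih3, ih4⟩ := ih i
      have hh : (run A b c (rr hn) (t + 1)).hist i = (run A b c (rr hn) t).hist i := by
        rw [run]
        exact step_hist_ne A b c h _
      rw [know_K_ne A b c (rr hn) h, know_R_ne A b c (rr hn) h, cnt_succ_ne hn h, hh]
      refine ⟨ih1, ih2, ih3, ?_⟩
      rcases ih4 with h4 | ⟨v, h4⟩
      · exact Or.inl h4
      · exact Or.inr ⟨v, outputs_succ A b c (rr hn) h4⟩

/-- Under the round-robin schedule with all inputs `false`, almost surely the total work is at
least `n ⌈log₂ n⌉`. -/
theorem rr_work (hA : Solves A) (hn : 0 < n) :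
    ∀ᵐ c ∂coins n, (n : ℝ≥0∞) * (Nat.clog 2 n : ℝ≥0∞) ≤
      totalWork A (fun _ => false) c (rr hn) := by
  have h1 := knows_all A hA (rr hn)
  have h2 : ∀ᵐ c ∂coins n, ∀ i : Fin n, ∃ t v, Outputs A (fun _ => false) c (rr hn) t i v := by
    rw [ae_all_iff]
    intro i
    apply hA.wait_free
    intro t
    refine ⟨i + n * t, ?_, ?_⟩
    · have : t ≤ n * t := Nat.le_mul_of_pos_left t hn
      omega
    · apply Fin.ext
      unfold rr
      simp only
      rw [Nat.add_mul_mod_self_left, Nat.mod_eq_of_lt i.2]
  filter_upwards [h1, h2] with c h1 h2
  choose T v hT using h2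
  obtain ⟨M, hM⟩ : ∃ M, ∀ i, T i ≤ M :=
    ⟨∑ i, T i, fun i => Finset.single_le_sum (fun _ _ => Nat.zero_le _) (Finset.mem_univ i)⟩
  have hlen : ∀ i, Nat.clog 2 n ≤ ((run A (fun _ => false) c (rr hn) M).hist i).length := by
    intro i
    have hout := outputs_mono A _ c (rr hn) (hM i) (hT i)
    have hall := h1 M i (v i) hout
    have hcard := (rr_bounds A (fun _ => false) c hn M i).1
    have : (know A (fun _ => false) c (rr hn) M).K i = Finset.univ := by
      ext q
      simp [hall q]
    rw [this, Finset.card_univ, Fintype.card_fin] at hcard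
    exact Nat.clog_le_of_le_pow hcard
  have hsum : n * Nat.clog 2 n ≤
      ∑ i, ((run A (fun _ => false) c (rr hn) M).hist i).length := by
    have := Finset.sum_le_sum (fun i (_ : i ∈ (Finset.univ : Finset (Fin n))) => hlen i)
    simpa using this
  unfold totalWork
  refine le_trans ?_ (le_iSup _ M)
  exact_mod_cast hsum

instance : IsProbabilityMeasure (coins n) := by
  unfold coins
  infer_instance

/-- **Lower bound.** `W(n) ≥ n ⌈log₂ n⌉` for every `n`. -/
theorem result (n : ℕ) : (n : ℝ≥0∞) * (Nat.clog 2 n : ℝ≥0∞) ≤ W n := by
  unfold W
  refine le_iInf₂ fun A hA => ?_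
  rcases Nat.eq_zero_or_pos n with rfl | hn
  · simp
  · have h := rr_work A hA hn
    have h2 : (n : ℝ≥0∞) * (Nat.clog 2 n : ℝ≥0∞) ≤
        ∫⁻ c, totalWork A (fun _ => false) c (rr hn) ∂coins n := by
      calc (n : ℝ≥0∞) * (Nat.clog 2 n : ℝ≥0∞)
          = ∫⁻ _, (n : ℝ≥0∞) * (Nat.clog 2 n : ℝ≥0∞) ∂coins n := by
            rw [lintegral_const, measure_univ, mul_one]
        _ ≤ _ := lintegral_mono_ae h
    refine h2.trans ?_
    unfold cost
    exact le_iSup₂_of_le (fun _ => false) (rr hn) le_rfl

end Pool.Agent.Results.MP_217fdb_lc.NLogNLowerBound
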